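import Pool.Agent.Lib.MP_c27d8d_an.Concrete

open Pool.Agent.Lib.MP_c27d8d_an

namespace Pool.Agent.Results.MP_c27d8d_an.CenterFormula

/-- The center of distances of the adjoint Cantorval of the geometric sequence `q ^ n`, for every
`0 < q < 1/2`. -/
theorem result (q : ℝ) (h0 : 0 < q) (h1 : q < 1 / 2) :
    (1 / 3 ≤ q → centerOfDistances (adjoint q) = {0}) ∧
    (q < 1 / 3 → (∃! D : Set ℝ, IsAuxSet q D) ∧
      ∀ D : Set ℝ, IsAuxSet q D → centerOfDistances (adjoint q) = {0} ∪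
        {α | ∃ (k : ℕ) (β : ℝ), α = q ^ (2 * k) * β ∧
          (q ^ 2 / (1 - q) ≤ β ∨ ∃ n : ℕ, 2 ≤ n ∧ β = ∑ i ∈ Finset.Icc 2 n, q ^ i) ∧
          (2 * β ≤ q * (1 - 2 * q) / (1 - q) ∨
            ∃ d ∈ D, 2 * β = q * (1 - 2 * q) / (1 - q) + q ^ 2 * d)}) := by
  have hs := sys h0 h1
  have hne : (1 - q) ≠ 0 := by
    have : 0 < 1 - q := by linarith
    exact this.ne'
  refine ⟨hs.trivial_center, fun hq3 => ?_⟩
  have huniq : ∀ D, IsAuxSet q D → D = D1 (q / (1 - q)) (adjoint q) := by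
    intro D hD
    rw [isAuxSet_iff] at hD
    exact hs.aux_unique hq3 hD
  refine ⟨⟨D1 (q / (1 - q)) (adjoint q), ?_, huniq⟩, ?_⟩
  · show IsAuxSet q _
    rw [isAuxSet_iff]
    exact hs.isAux_D1 hq3
  · intro D hD
    rw [huniq D hD]
    have h2 := hs.center_eq hq3
    have e1 : q * (q / (1 - q)) = q ^ 2 / (1 - q) := by ring
    have e2 : q - q ^ 2 / (1 - q) = q * (1 - 2 * q) / (1 - q) := by
      field_simp
      ring
    rw [e1, e2] at h2
    exact h2

end Pool.Agent.Results.MP_c27d8d_an.CenterFormula
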